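import Pool.Agent.Q230.IP.St

/-!
# Project IP: coercivity of the objective (job FFC)
-/

set_option autoImplicit false

namespace Pool.Agent.Q24.IP

open Pool.Agent.Q230.IP MvPolynomial

namespace FC

variable {n T : ℕ}

lemma abs_le_nrm (x : Fin n → ℝ) (l : Fin n) : |x l| ≤ ‖x‖ := by
  have := norm_le_pi_norm x l
  rwa [Real.norm_eq_abs] at this

/-- the power sum of the linear forms -/
noncomputable def ps (T : ℕ) (v : Fin n → ℝ) : ℝ := ∑ t : Fin T, uu t v ^ (2 * n + 6)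

lemma uu_smul (t : ℕ) (c : ℝ) (v : Fin n → ℝ) : uu t (c • v) = c * uu t v := by
  unfold uu
  rw [Finset.mul_sum]
  refine Finset.sum_congr rfl fun l _ => ?_
  rw [Pi.smul_apply, smul_eq_mul]; ring

lemma uu_zero (t : ℕ) : uu t (0 : Fin n → ℝ) = 0 := by
  unfold uu
  simp

lemma uu_cont (t : ℕ) : Continuous (fun v : Fin n → ℝ => uu t v) := by
  unfold uu
  exact continuous_finsetSum _ fun l _ => continuous_const.mul (continuous_apply l)

lemma ps_cont (T : ℕ) : Continuous (fun v : Fin n → ℝ => ps T v) := by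
  unfold ps
  exact continuous_finsetSum _ fun t _ => (uu_cont _).pow _

lemma pow_nn (y : ℝ) : 0 ≤ y ^ (2 * n + 6) := Even.pow_nonneg ⟨n + 3, by ring⟩ y

lemma ps_nonneg (T : ℕ) (v : Fin n → ℝ) : 0 ≤ ps T v := Finset.sum_nonneg fun _ _ => pow_nn _

lemma ps_pos (hT : n ≤ T) {v : Fin n → ℝ} (hv : v ≠ 0) : 0 < ps T v := by
  by_contra h
  have h0 : ps T v = 0 := le_antisymm (not_lt.1 h) (ps_nonneg T v)
  have h1 : ∀ t : Fin T, uu t v = 0 := by
    intro t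
    have h2 := (Finset.sum_eq_zero_iff_of_nonneg (fun t _ => pow_nn _)).1 h0 t (Finset.mem_univ t)
    exact (pow_eq_zero_iff (by omega)).1 h2
  apply hv
  have hdet : (Matrix.vandermonde (fun i : Fin n => ((i : ℕ) : ℝ))).det ≠ 0 :=
    Matrix.det_vandermonde_ne_zero_iff.2 fun i j hij => by
      exact Fin.ext (Nat.cast_injective hij)
  refine Matrix.eq_zero_of_mulVec_eq_zero hdet ?_
  funext i
  have h2 := h1 ⟨i, lt_of_lt_of_le i.2 hT⟩
  rw [Matrix.mulVec, dotProduct]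
  simp only [Matrix.vandermonde_apply, Pi.zero_apply]
  exact h2

lemma ps_lower (hT : n ≤ T) : ∃ c : ℝ, 0 < c ∧ ∀ v : Fin n → ℝ, c * ‖v‖ ^ (2 * n + 6) ≤ ps T v := by
  obtain ⟨c, hc, h⟩ : ∃ c : ℝ, 0 < c ∧ ∀ u ∈ Metric.sphere (0 : Fin n → ℝ) 1, c ≤ ps T u := by
    rcases (Metric.sphere (0 : Fin n → ℝ) 1).eq_empty_or_nonempty with h | h
    · exact ⟨1, one_pos, by rw [h]; simp⟩
    · obtain ⟨u, hu, hmin⟩ := (isCompact_sphere (0 : Fin n → ℝ) 1).exists_isMinOn h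
        (ps_cont T).continuousOn
      refine ⟨ps T u, ps_pos hT ?_, fun w hw => hmin hw⟩
      rintro rfl
      simp at hu
  refine ⟨c, hc, fun v => ?_⟩
  by_cases hv : v = 0
  · rw [hv, norm_zero, zero_pow (by omega), mul_zero]
    exact ps_nonneg T 0
  · have hn : 0 < ‖v‖ := norm_pos_iff.2 hv
    have h1 := h ((‖v‖)⁻¹ • v) (by
      rw [mem_sphere_zero_iff_norm, norm_smul, norm_inv, norm_norm, inv_mul_cancel₀ hn.ne'])
    have h2 : ps T v = ‖v‖ ^ (2 * n + 6) * ps T ((‖v‖)⁻¹ • v) := by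
      unfold ps
      rw [Finset.mul_sum]
      refine Finset.sum_congr rfl fun t _ => ?_
      rw [uu_smul, ← mul_pow, ← mul_assoc, mul_inv_cancel₀ hn.ne', one_mul]
    rw [h2, mul_comm]
    exact mul_le_mul_of_nonneg_left h1 (by positivity)

lemma bas_le : ∃ C : ℝ, 0 ≤ C ∧ ∀ (x v : Fin n → ℝ) (i : PI n T),
    |bas x v i| ≤ C * (1 + ‖x‖) * (1 + ‖v‖) ^ (2 * n + 2) := by
  obtain ⟨U, hU⟩ : ∃ U : ℝ, U = ∑ l : Fin n, (T : ℝ) ^ (l : ℕ) := ⟨_, rfl⟩
  have hU0 : 0 ≤ U := by rw [hU]; positivity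
  refine ⟨(1 + U) ^ (2 * n + 2), by positivity, fun x v i => ?_⟩
  have nv : 0 ≤ ‖v‖ := norm_nonneg v
  have nx : 0 ≤ ‖x‖ := norm_nonneg x
  set Z : ℝ := (1 + U) * (1 + ‖v‖) with hZ
  have hZ1 : 1 ≤ Z := by
    rw [hZ]; nlinarith
  have hv1 : 1 + ‖v‖ ≤ Z := by
    rw [hZ]; nlinarith
  have hu : ∀ t : Fin T, |uu t v| ≤ Z := by
    intro t
    have h1 : |uu t v| ≤ U * ‖v‖ := by
      unfold uu
      refine (Finset.abs_sum_le_sum_abs _ _).trans ?_
      rw [hU, Finset.sum_mul]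
      refine Finset.sum_le_sum fun l _ => ?_
      rw [abs_mul, abs_pow, Nat.abs_cast]
      refine mul_le_mul ?_ (abs_le_nrm v l) (abs_nonneg _) (by positivity)
      exact pow_le_pow_left₀ (Nat.cast_nonneg _) (by exact_mod_cast t.2.le) _
    refine h1.trans ?_
    rw [hZ]; nlinarith
  have e : (1 + U) ^ (2 * n + 2) * (1 + ‖x‖) * (1 + ‖v‖) ^ (2 * n + 2) =
      (1 + ‖x‖) * Z ^ (2 * n + 2) := by
    rw [hZ, mul_pow]; ring
  rw [e]
  have hZp : ∀ j : ℕ, j ≤ 2 * n + 2 → Z ^ j ≤ (1 + ‖x‖) * Z ^ (2 * n + 2) := by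
    intro j hj
    have h1 : Z ^ j ≤ Z ^ (2 * n + 2) := pow_le_pow_right₀ hZ1 hj
    have h2 : 0 ≤ Z ^ (2 * n + 2) := by positivity
    nlinarith
  rcases i with l | ⟨t, j⟩ | ⟨t, l, j⟩
  · show |x l| ≤ _
    have h1 := abs_le_nrm x l
    have h2 : (1 : ℝ) ≤ Z ^ (2 * n + 2) := one_le_pow₀ hZ1
    nlinarith
  · show |uu t v ^ (j : ℕ)| ≤ _
    rw [abs_pow]
    exact (pow_le_pow_left₀ (abs_nonneg _) (hu t) _).trans (hZp _ (by have := j.2; omega))
  · show |uu t v ^ (j : ℕ) * v l| ≤ _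
    rw [abs_mul, abs_pow]
    have h1 : |uu t v| ^ (j : ℕ) * |v l| ≤ Z ^ (j : ℕ) * Z := by
      refine mul_le_mul (pow_le_pow_left₀ (abs_nonneg _) (hu t) _) ?_ (abs_nonneg _)
        (by positivity)
      have := abs_le_nrm v l
      linarith
    rw [← pow_succ] at h1
    exact h1.trans (hZp _ (by have := j.2; omega))

lemma Phi_nonneg {A : Dat n} (hP : ∀ v : Fin n → ℝ, 0 ≤ aeval v A.P) (x v : Fin n → ℝ) :
    0 ≤ A.Phi x v := by
  unfold Dat.Phi
  refine add_nonneg (Finset.sum_nonneg fun l _ => ?_) (hP v)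
  split_ifs
  · positivity
  · exact le_refl _

lemma FF_eq (A : Dat n) (p : Par n T → ℝ) (x v : Fin n → ℝ) : A.FF p x v =
    p (Sum.inl 1) * (1 + v A.o ^ 2) * A.Phi x v + p (Sum.inl 2) * ps T v -
      p (Sum.inl 0) * ∑ l, x l ^ 4 + ∑ i : PI n T, p (Sum.inr i) * bas x v i := rfl

/-- the perturbation is small compared with the leading terms -/
lemma pert_le {C h : ℝ} (hC : ∀ (x v : Fin n → ℝ) (i : PI n T),
    |bas x v i| ≤ C * (1 + ‖x‖) * (1 + ‖v‖) ^ (2 * n + 2)) (hC0 : 0 ≤ C) (hh : 0 ≤ h)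
    {p : Par n T → ℝ} (hp : ∀ i, |p i| ≤ h) (x v : Fin n → ℝ) :
    |∑ i : PI n T, p (Sum.inr i) * bas x v i| ≤
      h * Fintype.card (PI n T) * (C * (1 + ‖x‖) * (1 + ‖v‖) ^ (2 * n + 2)) := by
  refine (Finset.abs_sum_le_sum_abs _ _).trans ?_
  have h1 : ∀ i ∈ (Finset.univ : Finset (PI n T)), |p (Sum.inr i) * bas x v i| ≤
      h * (C * (1 + ‖x‖) * (1 + ‖v‖) ^ (2 * n + 2)) := by
    intro i _
    rw [abs_mul]
    exact mul_le_mul (hp _) (hC x v i) (abs_nonneg _) hh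
  refine (Finset.sum_le_card_nsmul _ _ _ h1).trans ?_
  rw [nsmul_eq_mul, Finset.card_univ]
  exact le_of_eq (by ring)

lemma four_le (x : Fin n → ℝ) : ∑ l, x l ^ 4 ≤ n * ‖x‖ ^ 4 := by
  have h1 : ∀ l ∈ (Finset.univ : Finset (Fin n)), x l ^ 4 ≤ ‖x‖ ^ 4 := by
    intro l _
    have h2 : x l ^ 4 = |x l| ^ 4 := by
      rw [← abs_pow, abs_of_nonneg (by positivity)]
    rw [h2]
    exact pow_le_pow_left₀ (abs_nonneg _) (abs_le_nrm x l) 4
  refine (Finset.sum_le_card_nsmul _ _ _ h1).trans ?_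
  rw [nsmul_eq_mul, Finset.card_univ, Fintype.card_fin]

lemma two_le (x : Fin n → ℝ) : ∑ l, x l ^ 2 ≤ n * ‖x‖ ^ 2 := by
  have h1 : ∀ l ∈ (Finset.univ : Finset (Fin n)), x l ^ 2 ≤ ‖x‖ ^ 2 := by
    intro l _
    rw [← sq_abs (x l)]
    exact pow_le_pow_left₀ (abs_nonneg _) (abs_le_nrm x l) 2
  refine (Finset.sum_le_card_nsmul _ _ _ h1).trans ?_
  rw [nsmul_eq_mul, Finset.card_univ, Fintype.card_fin]

lemma four_ge (x : Fin n → ℝ) : ‖x‖ ^ 4 ≤ ∑ l, x l ^ 4 := by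
  have h0 : 0 ≤ ∑ l, x l ^ 4 := Finset.sum_nonneg fun l _ => by positivity
  rcases (norm_nonneg x).eq_or_lt with h | h
  · rw [← h]; simpa using h0
  · obtain ⟨l, hl⟩ : ∃ l, ‖x‖ ≤ |x l| := by
      by_contra hcon
      push Not at hcon
      have := (pi_norm_lt_iff h (x := x)).2 fun l => by
        rw [Real.norm_eq_abs]; exact hcon l
      exact lt_irrefl _ this
    have h2 : x l ^ 4 = |x l| ^ 4 := by
      rw [← abs_pow, abs_of_nonneg (by positivity)]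
    calc ‖x‖ ^ 4 ≤ |x l| ^ 4 := pow_le_pow_left₀ h.le hl 4
      _ = x l ^ 4 := h2.symm
      _ ≤ ∑ l, x l ^ 4 := Finset.single_le_sum (f := fun l => x l ^ 4)
          (fun l _ => by positivity) (Finset.mem_univ l)

end FC

open FC

/-- **Coercivity of the objective, uniformly for parameters in a box.** -/
theorem ffc : S_FFC := by
  intro n T A hn hT hP lo hi hlo
  obtain ⟨c, hc, hps⟩ := ps_lower (n := n) hT
  obtain ⟨C, hC0, hC⟩ := bas_le (n := n) (T := T)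
  obtain ⟨h, hh⟩ : ∃ h : ℝ, h = |hi| := ⟨_, rfl⟩
  have h0 : 0 ≤ h := by rw [hh]; exact abs_nonneg _
  have hhi : hi ≤ h := by rw [hh]; exact le_abs_self _
  obtain ⟨N, hN⟩ : ∃ N : ℝ, N = Fintype.card (PI n T) := ⟨_, rfl⟩
  have hN0 : 0 ≤ N := by rw [hN]; exact Nat.cast_nonneg _
  refine ⟨fun B M => ?_, fun M => ?_⟩
  · obtain ⟨B', hB'⟩ : ∃ B' : ℝ, B' = max B 0 := ⟨_, rfl⟩
    have hB0 : 0 ≤ B' := by rw [hB']; exact le_max_right _ _
    have hBB : B ≤ B' := by rw [hB']; exact le_max_left _ _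
    obtain ⟨K0, hK0⟩ : ∃ K0 : ℝ, K0 = h * (n * B' ^ 4) := ⟨_, rfl⟩
    obtain ⟨K1, hK1⟩ : ∃ K1 : ℝ, K1 = h * N * (C * (1 + B') * 2 ^ (2 * n + 2)) := ⟨_, rfl⟩
    have hK00 : 0 ≤ K0 := by rw [hK0]; positivity
    have hK10 : 0 ≤ K1 := by rw [hK1]; positivity
    refine ⟨max (max 1 ((K1 + 1) / (lo * c))) (M + K0), fun p hp x v hx hv => ?_⟩
    have hr1 : 1 ≤ ‖v‖ := (le_max_left _ _).trans ((le_max_left _ _).trans hv)
    have hr2 : (K1 + 1) / (lo * c) ≤ ‖v‖ := (le_max_right _ _).trans ((le_max_left _ _).trans hv)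
    have hr3 : M + K0 ≤ ‖v‖ := (le_max_right _ _).trans hv
    have hpi : ∀ i, |p i| ≤ h := fun i => (hp.2.2.2 i).trans hhi
    have hxB : ‖x‖ ≤ B' := hx.trans hBB
    obtain ⟨r, hr⟩ : ∃ r : ℝ, r = ‖v‖ := ⟨_, rfl⟩
    have t1 : 0 ≤ p (Sum.inl 1) * (1 + v A.o ^ 2) * A.Phi x v :=
      mul_nonneg (mul_nonneg hp.2.1 (by positivity)) (Phi_nonneg hP x v)
    have t2 : lo * (c * r ^ (2 * n + 6)) ≤ p (Sum.inl 2) * ps T v := by
      rw [hr]
      exact mul_le_mul hp.2.2.1 (hps v) (by positivity) (hlo.le.trans hp.2.2.1)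
    have t3 : p (Sum.inl 0) * ∑ l, x l ^ 4 ≤ K0 := by
      rw [hK0]
      refine mul_le_mul ((le_abs_self _).trans (hpi _)) ?_
        (Finset.sum_nonneg fun l _ => by positivity) h0
      refine (four_le x).trans ?_
      have := pow_le_pow_left₀ (norm_nonneg x) hxB 4
      exact mul_le_mul_of_nonneg_left this (Nat.cast_nonneg _)
    have t4 : |∑ i : PI n T, p (Sum.inr i) * bas x v i| ≤ K1 * r ^ (2 * n + 5) := by
      refine (pert_le hC hC0 h0 hpi x v).trans ?_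
      rw [← hN, hK1]
      have e1 : (1 + ‖v‖) ^ (2 * n + 2) ≤ 2 ^ (2 * n + 2) * r ^ (2 * n + 5) := by
        calc (1 + ‖v‖) ^ (2 * n + 2) ≤ (2 * ‖v‖) ^ (2 * n + 2) :=
              pow_le_pow_left₀ (by positivity) (by linarith) _
          _ = 2 ^ (2 * n + 2) * ‖v‖ ^ (2 * n + 2) := mul_pow _ _ _
          _ ≤ 2 ^ (2 * n + 2) * r ^ (2 * n + 5) := by
              rw [hr]
              exact mul_le_mul_of_nonneg_left (pow_le_pow_right₀ hr1 (by omega)) (by positivity)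
      have e2 : C * (1 + ‖x‖) ≤ C * (1 + B') := mul_le_mul_of_nonneg_left (by linarith) hC0
      have e3 : C * (1 + ‖x‖) * (1 + ‖v‖) ^ (2 * n + 2) ≤
          C * (1 + B') * (2 ^ (2 * n + 2) * r ^ (2 * n + 5)) :=
        mul_le_mul e2 e1 (by positivity) (by positivity)
      calc h * N * (C * (1 + ‖x‖) * (1 + ‖v‖) ^ (2 * n + 2)) ≤
          h * N * (C * (1 + B') * (2 ^ (2 * n + 2) * r ^ (2 * n + 5))) :=
            mul_le_mul_of_nonneg_left e3 (by positivity)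
        _ = _ := by ring
    have t5 := neg_abs_le (∑ i : PI n T, p (Sum.inr i) * bas x v i)
    rw [FF_eq]
    have hrr : 1 ≤ r := by rw [hr]; exact hr1
    have hlc : 0 < lo * c := mul_pos hlo hc
    have t6 : K1 + 1 ≤ lo * c * r := by
      rw [hr]
      rw [div_le_iff₀ hlc] at hr2
      linarith
    have t7 : r ≤ r ^ (2 * n + 5) := le_self_pow₀ hrr (by omega)
    have t8 : r ^ (2 * n + 5) ≤ lo * (c * r ^ (2 * n + 6)) - K1 * r ^ (2 * n + 5) := by
      have e1 : lo * (c * r ^ (2 * n + 6)) - K1 * r ^ (2 * n + 5) =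
          r ^ (2 * n + 5) * (lo * c * r - K1) := by
        rw [show 2 * n + 6 = (2 * n + 5) + 1 by ring, pow_succ]; ring
      rw [e1]
      have e2 : 0 ≤ r ^ (2 * n + 5) := by positivity
      nlinarith
    rw [← hr] at hr3
    linarith
  · obtain ⟨K, hK⟩ : ∃ K : ℝ, K = h * (n + |aeval (0 : Fin n → ℝ) A.P| + 2 * N * C) := ⟨_, rfl⟩
    have hK0 : 0 ≤ K := by rw [hK]; positivity
    refine ⟨1 + (K + |M|) / lo, fun p hp x hx => ?_⟩
    have hpi : ∀ i, |p i| ≤ h := fun i => (hp.2.2.2 i).trans hhi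
    obtain ⟨m, hm⟩ : ∃ m : ℝ, m = ‖x‖ := ⟨_, rfl⟩
    rw [← hm] at hx
    have hd0 : 0 ≤ (K + |M|) / lo := by positivity
    have hm1 : 1 ≤ m := by linarith
    have hm2 : (K + |M|) / lo ≤ m := by linarith
    have hmm : m ≤ m ^ 2 := by nlinarith
    have s1 : K + |M| ≤ lo * m ^ 2 := by
      rw [div_le_iff₀ hlo] at hm2
      nlinarith
    have s2 : p (Sum.inl 1) * (1 + (0 : Fin n → ℝ) A.o ^ 2) * A.Phi x 0 ≤
        h * (n * m ^ 2 + |aeval (0 : Fin n → ℝ) A.P|) := by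
      have e1 : A.Phi x 0 ≤ n * m ^ 2 + |aeval (0 : Fin n → ℝ) A.P| := by
        unfold Dat.Phi
        refine add_le_add ?_ (le_abs_self _)
        refine le_trans ?_ ((two_le x).trans (by rw [hm]))
        refine Finset.sum_le_sum fun l _ => ?_
        split_ifs
        · simp
        · positivity
      have e2 : (1 + (0 : Fin n → ℝ) A.o ^ 2) = 1 := by simp
      rw [e2, mul_one]
      exact mul_le_mul ((le_abs_self _).trans (hpi _)) e1 (Phi_nonneg hP x 0) h0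
    have s3 : ps T (0 : Fin n → ℝ) = 0 := by
      unfold ps
      refine Finset.sum_eq_zero fun t _ => ?_
      rw [uu_zero, zero_pow (by omega)]
    have s4 : lo * m ^ 4 ≤ p (Sum.inl 0) * ∑ l, x l ^ 4 := by
      rw [hm]
      exact mul_le_mul hp.1 (four_ge x) (by positivity) (hlo.le.trans hp.1)
    have s5 : |∑ i : PI n T, p (Sum.inr i) * bas x 0 i| ≤ h * N * (C * (2 * m)) := by
      refine (pert_le hC hC0 h0 hpi x 0).trans ?_
      rw [← hN, norm_zero, add_zero, one_pow, mul_one, ← hm]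
      refine mul_le_mul_of_nonneg_left ?_ (by positivity)
      exact mul_le_mul_of_nonneg_left (by linarith) hC0
    have s6 := le_abs_self (∑ i : PI n T, p (Sum.inr i) * bas x 0 i)
    rw [FF_eq, s3, mul_zero, add_zero]
    have s7 : h * (n * m ^ 2 + |aeval (0 : Fin n → ℝ) A.P|) + h * N * (C * (2 * m)) ≤ K * m ^ 2 := by
      rw [hK]
      have e1 : h * |aeval (0 : Fin n → ℝ) A.P| ≤ h * |aeval (0 : Fin n → ℝ) A.P| * m ^ 2 :=
        le_mul_of_one_le_right (by positivity) (by nlinarith)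
      have e2 : h * N * (C * (2 * m)) ≤ h * N * (C * (2 * m ^ 2)) := by gcongr
      nlinarith
    have s8 : K * m ^ 2 - lo * m ^ 4 ≤ - |M| := by
      have e1 : K * m ^ 2 - lo * m ^ 4 = - (m ^ 2 * (lo * m ^ 2 - K)) := by ring
      rw [e1, neg_le_neg_iff]
      have e2 : 1 ≤ m ^ 2 := by nlinarith
      have e3 : |M| ≤ lo * m ^ 2 - K := by linarith
      nlinarith [abs_nonneg M]
    have s9 := neg_abs_le M
    linarith

end Pool.Agent.Q24.IP
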