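import Pool.Agent.Q24.IP.FFC

/-!
# Project IP: the limit of the values, negative case (job LIMF)
-/

set_option autoImplicit false

namespace Pool.Agent.Q24.IP

open Pool.Agent.Q230.IP MvPolynomial FC

namespace LF

variable {n T : ℕ}

/-- the parameters without perturbation -/
noncomputable def p0 (n T : ℕ) (r a c : ℝ) : Par n T → ℝ := Sum.elim ![r, a, c] fun _ => 0

lemma FF_p0 (A : Dat n) (r a c : ℝ) (x v : Fin n → ℝ) : A.FF (p0 n T r a c) x v =
    a * (1 + v A.o ^ 2) * A.Phi x v + c * ps T v - r * ∑ l, x l ^ 4 := by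
  rw [FF_eq]
  simp [p0]

lemma Phi_cont (A : Dat n) (v : Fin n → ℝ) : Continuous (fun x : Fin n → ℝ => A.Phi x v) := by
  unfold Dat.Phi
  refine Continuous.add ?_ continuous_const
  refine continuous_finsetSum _ fun l _ => ?_
  split_ifs
  · exact (continuous_const.sub (continuous_apply l)).pow 2
  · exact continuous_const

end LF

open LF

/-- **The limit of the values, negative case.** -/
theorem limF (h : S_VV) : S_limF := by
  intro n T A hn hT hP hphi r hr a ha
  have hlo : (0 : ℝ) < min r 1 := lt_min hr one_pos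
  obtain ⟨R, hR⟩ := (ffc n T A hn hT hP (min r 1) (|r| + |a| + 1) hlo).2 (1 / 2)
  have hbox : InBox (min r 1) (|r| + |a| + 1) (p0 n T r a 1) := by
    refine ⟨min_le_left _ _, ha, min_le_right _ _, fun i => ?_⟩
    rcases i with i | i
    · fin_cases i
      · show |r| ≤ _
        have := abs_nonneg a
        linarith
      · show |a| ≤ _
        have := abs_nonneg r
        linarith
      · show |(1 : ℝ)| ≤ _
        rw [abs_one]
        have := abs_nonneg r
        have := abs_nonneg a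
        linarith
    · show |(0 : ℝ)| ≤ _
      rw [abs_zero]
      positivity
  have hfar : ∀ c : ℝ, ∀ x : Fin n → ℝ, R ≤ ‖x‖ → A.FF (p0 n T r a c) x 0 ≤ 1 / 2 := by
    intro c x hx
    have h1 := hR _ hbox x hx
    rw [FF_p0] at h1 ⊢
    have s3 : ps T (0 : Fin n → ℝ) = 0 := by
      unfold ps
      refine Finset.sum_eq_zero fun t _ => ?_
      rw [uu_zero, zero_pow (by omega)]
    rw [s3, mul_zero] at h1 ⊢
    exact h1
  have hnear : ∃ c0 > 0, ∀ c : ℝ, 0 < c → c ≤ c0 → ∀ x ∈ Metric.closedBall (0 : Fin n → ℝ) R,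
      ∃ v, A.FF (p0 n T r a c) x v ≤ 1 / 2 := by
    refine (isCompact_closedBall (0 : Fin n → ℝ) R).induction_on
      (p := fun S => ∃ c0 > 0, ∀ c : ℝ, 0 < c → c ≤ c0 → ∀ x ∈ S,
        ∃ v, A.FF (p0 n T r a c) x v ≤ 1 / 2) ?_ ?_ ?_ ?_
    · exact ⟨1, one_pos, fun c _ _ x hx => hx.elim⟩
    · rintro s t hst ⟨c0, h0, h1⟩
      exact ⟨c0, h0, fun c hc hc' x hx => h1 c hc hc' x (hst hx)⟩
    · rintro s t ⟨c0, h0, h1⟩ ⟨c1, k0, k1⟩
      refine ⟨min c0 c1, lt_min h0 k0, fun c hc hc' x hx => ?_⟩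
      rcases hx with hx | hx
      · exact h1 c hc (hc'.trans (min_le_left _ _)) x hx
      · exact k1 c hc (hc'.trans (min_le_right _ _)) x hx
    · intro y _
      obtain ⟨v, hv⟩ := hphi y
      have hcont : Continuous (fun x : Fin n → ℝ => a * (1 + v A.o ^ 2) * A.Phi x v) :=
        continuous_const.mul (Phi_cont A v)
      have hev : ∀ᶠ x in nhds y, a * (1 + v A.o ^ 2) * A.Phi x v < 1 / 4 := by
        refine hcont.continuousAt.eventually (gt_mem_nhds ?_)
        show a * (1 + v A.o ^ 2) * A.Phi y v < 1 / 4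
        rw [hv, mul_zero]; norm_num
      refine ⟨_, mem_nhdsWithin_of_mem_nhds hev, ?_⟩
      have hp := ps_nonneg T v
      refine ⟨1 / (4 * (1 + ps T v)), by positivity, fun c hc hc' x hx => ⟨v, ?_⟩⟩
      have hx' : a * (1 + v A.o ^ 2) * A.Phi x v < 1 / 4 := hx
      rw [FF_p0]
      have h1 : c * ps T v ≤ 1 / 4 := by
        rw [le_div_iff₀ (by positivity)] at hc'
        nlinarith
      have h2 : 0 ≤ r * ∑ l, x l ^ 4 :=
        mul_nonneg hr.le (Finset.sum_nonneg fun l _ => by positivity)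
      linarith
  obtain ⟨c0, hc0, hc⟩ := hnear
  obtain ⟨W, hW, hex, huniq⟩ := h n T A hn hT hP
  refine ⟨c0, hc0, fun c hc1 hc2 => ?_⟩
  have hadm : Adm (p0 n T r a c) := ⟨hr, ha, hc1⟩
  have hW1 : W (p0 n T r a c) < 1 := by
    obtain ⟨x, hx⟩ := hex _ hadm
    have h1 : ∃ v, A.FF (p0 n T r a c) x v ≤ 1 / 2 := by
      by_cases hxR : ‖x‖ ≤ R
      · exact hc c hc1 hc2 x (by rwa [mem_closedBall_zero_iff])
      · exact ⟨0, hfar c x (not_le.1 hxR).le⟩
    obtain ⟨v, hv⟩ := h1
    have := hx.1 v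
    linarith
  have hev := (hW _ hadm).eventually (gt_mem_nhds hW1)
  obtain ⟨e, he, hsub⟩ := Metric.mem_nhdsWithin_iff.1 hev
  refine ⟨e / 2, by positivity, fun p h0 h1 h2 hp x V hV => ?_⟩
  have hpadm : Adm p := ⟨by rw [h0]; exact hr, by rw [h1]; exact ha, by rw [h2]; exact hc1⟩
  have hd : dist p (p0 n T r a c) ≤ e / 2 := by
    refine (dist_pi_le_iff (by positivity)).2 fun i => ?_
    rcases i with i | i
    · have h3 : p (Sum.inl i) = p0 n T r a c (Sum.inl i) := by
        fin_cases i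
        · exact h0
        · exact h1
        · exact h2
      rw [h3, dist_self]; positivity
    · rw [Real.dist_eq]
      show |p (Sum.inr i) - 0| ≤ e / 2
      rw [sub_zero]
      exact hp i
  rw [huniq p hpadm x V hV]
  exact hsub ⟨Metric.mem_ball.2 (by linarith), hpadm⟩

end Pool.Agent.Q24.IP
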