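import Pool.Agent.Q230.IP.St

/-!
# Project IP: thresholds which are never values (job THR)
-/

set_option autoImplicit false

namespace Pool.Agent.Q24.IP

open Pool.Agent.Q230.IP MvPolynomial

namespace TH

/-- the relation for a fixed value of the first variable -/
def qt {P : Type} {D : ℕ} (q : (Option P → Fin D) → ℤ) (θ : ℕ) (a : P → Fin D) : ℤ :=
  ∑ i : Fin D, q (fun o => o.elim i a) * (θ : ℤ) ^ (i : ℕ)

lemma bev_qt {P : Type} [Fintype P] {D : ℕ} (q : (Option P → Fin D) → ℤ) (θ : ℕ) (z : P → ℝ) :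
    bev (qt q θ) z = bev q (fun o => o.elim (θ : ℝ) z) := by
  classical
  unfold bev qt
  have e1 : ∀ a : P → Fin D, (((∑ i : Fin D, q (fun o => o.elim i a) * (θ : ℤ) ^ (i : ℕ) : ℤ)) : ℝ) *
      ∏ i, z i ^ (a i : ℕ) = ∑ i : Fin D, (q (fun o => o.elim i a) : ℝ) *
        ((θ : ℝ) ^ (i : ℕ) * ∏ i, z i ^ (a i : ℕ)) := by
    intro a
    push_cast
    rw [Finset.sum_mul]
    exact Finset.sum_congr rfl fun i _ => by ring
  simp only [e1]
  have e3 : (∑ a : P → Fin D, ∑ i : Fin D, (q (fun o => o.elim i a) : ℝ) *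
      ((θ : ℝ) ^ (i : ℕ) * ∏ i, z i ^ (a i : ℕ))) =
      ∑ x : (P → Fin D) × Fin D, (q (fun o => o.elim x.2 x.1) : ℝ) *
      ((θ : ℝ) ^ (x.2 : ℕ) * ∏ i, z i ^ (x.1 i : ℕ)) :=
    (Fintype.sum_prod_type' (fun (a : P → Fin D) (i : Fin D) =>
      (q (fun o => o.elim i a) : ℝ) * ((θ : ℝ) ^ (i : ℕ) * ∏ i, z i ^ (a i : ℕ)))).symm
  rw [e3]
  refine Eq.trans (Fintype.sum_equiv ((Equiv.prodComm _ _).trans
    (Equiv.piOptionEquivProd (β := fun _ : Option P => Fin D)).symm)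
    (fun x : (P → Fin D) × Fin D => (q (fun o => o.elim x.2 x.1) : ℝ) *
      ((θ : ℝ) ^ (x.2 : ℕ) * ∏ i, z i ^ (x.1 i : ℕ)))
    (fun a : Option P → Fin D => (q a : ℝ) * ∏ o : Option P, (o.elim (θ : ℝ) z) ^ (a o : ℕ)) ?_)
    (Finset.sum_congr (by ext x; simp only [Finset.mem_univ]) fun _ _ => rfl)
  rintro ⟨a, i⟩
  have e2 : ((Equiv.prodComm _ _).trans
      (Equiv.piOptionEquivProd (β := fun _ : Option P => Fin D)).symm) (a, i) =
      fun o => o.elim i a := by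
    funext o
    cases o <;> rfl
  rw [e2, Fintype.prod_option]
  rfl

/-- the bad values of the first variable -/
lemma bad {P : Type} {D : ℕ} {q : (Option P → Fin D) → ℤ} (hq : q ≠ 0) :
    ∃ S : Finset ℤ, S.card ≤ D ∧ ∀ θ : ℕ, (θ : ℤ) ∉ S → qt q θ ≠ 0 := by
  obtain ⟨a0, ha0⟩ := Function.ne_iff.1 hq
  obtain ⟨f, hf⟩ : ∃ f : Polynomial ℤ, f = ∑ i : Fin D,
    Polynomial.C (q (fun o => o.elim i (fun j => a0 (some j)))) * Polynomial.X ^ (i : ℕ) := ⟨_, rfl⟩
  have hcoeff : f.coeff (a0 none : ℕ) = q a0 := by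
    rw [hf, Polynomial.finsetSum_coeff]
    rw [Finset.sum_eq_single (a0 none)]
    · rw [Polynomial.coeff_C_mul, Polynomial.coeff_X_pow, if_pos rfl, mul_one]
      congr 1
      funext o
      cases o <;> rfl
    · intro i _ hi
      rw [Polynomial.coeff_C_mul, Polynomial.coeff_X_pow, if_neg, mul_zero]
      exact fun h => hi (Fin.ext h.symm)
    · intro h
      exact (h (Finset.mem_univ _)).elim
  have hf0 : f ≠ 0 := by
    rintro h
    rw [h, Polynomial.coeff_zero] at hcoeff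
    exact ha0 hcoeff.symm
  have hdeg : f.natDegree ≤ D := by
    rw [hf]
    refine Polynomial.natDegree_sum_le_of_forall_le _ _ fun i _ => ?_
    exact (Polynomial.natDegree_C_mul_X_pow_le _ _).trans i.2.le
  refine ⟨f.roots.toFinset, (Multiset.toFinset_card_le _).trans
    ((Polynomial.card_roots' f).trans hdeg), fun θ hθ h0 => hθ ?_⟩
  rw [Multiset.mem_toFinset, Polynomial.mem_roots hf0, Polynomial.IsRoot.def, hf,
    Polynomial.eval_finsetSum]
  have h1 : qt q θ (fun j => a0 (some j)) = 0 := congrFun h0 _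
  rw [← h1]
  unfold qt
  refine Finset.sum_congr rfl fun i _ => ?_
  simp

lemma qt_le {P : Type} {D H B : ℕ} {q : (Option P → Fin D) → ℤ} (hH : ∀ a, (q a).natAbs ≤ H)
    {θ : ℕ} (h1 : 1 ≤ θ) (hB : θ ≤ B) (a : P → Fin D) : (qt q θ a).natAbs ≤ D * H * B ^ D := by
  unfold qt
  refine (Int.natAbs_sum_le _ _).trans ?_
  have h2 : ∀ i ∈ (Finset.univ : Finset (Fin D)),
      (q (fun o => o.elim i a) * (θ : ℤ) ^ (i : ℕ)).natAbs ≤ H * B ^ D := by
    intro i _
    rw [Int.natAbs_mul, Int.natAbs_pow, Int.natAbs_natCast]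
    refine Nat.mul_le_mul (hH _) ?_
    exact (Nat.pow_le_pow_left hB _).trans (Nat.pow_le_pow_right (h1.trans hB) i.2.le)
  refine (Finset.sum_le_card_nsmul _ _ _ h2).trans ?_
  rw [Finset.card_univ, Fintype.card_fin, smul_eq_mul, mul_assoc]

/-- an interval with many elements contains an element outside a small set -/
lemma pick {S : Finset ℤ} {a b N : ℕ} (hS : S.card ≤ N) (h : N + a ≤ b) :
    ∃ θ : ℕ, a ≤ θ ∧ θ ≤ b ∧ (θ : ℤ) ∉ S := by
  have h1 : S.card < ((Finset.Icc a b).image (fun θ : ℕ => (θ : ℤ))).card := by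
    rw [Finset.card_image_of_injective _ Nat.cast_injective, Nat.card_Icc]
    omega
  obtain ⟨y, hy, hy'⟩ := Finset.exists_mem_notMem_of_card_lt_card h1
  obtain ⟨θ, hθ, rfl⟩ := Finset.mem_image.1 hy
  obtain ⟨h2, h3⟩ := Finset.mem_Icc.1 hθ
  exact ⟨θ, h2, h3, hy'⟩

end TH

open TH

/-- **Thresholds which are never values.** -/
theorem thr (h1 : S_rel) (h2 : S_hier) (h3 : S_pos) : S_thr := by
  classical
  intro n A C D K e hn hC hdeg hnrm hD hK he
  have hr := fun (r : Fin (n + 1)) (t : Fin (TT n)) =>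
    h1 n (TT n) A C D hn hC hdeg hnrm hD r (Nat.lt_succ_iff.1 r.2) t
      (Sum.inr (Sum.inr (Sum.inr ())))
  choose q hq0 hqb hq using hr
  have hb := fun (r : Fin (n + 1)) (t : Fin (TT n)) => bad (hq0 r t)
  choose S hS1 hS2 using hb
  obtain ⟨U, hU⟩ : ∃ U : Finset ℤ, U = Finset.univ.biUnion
    (fun rt : Fin (n + 1) × Fin (TT n) => S rt.1 rt.2) := ⟨_, rfl⟩
  have hUc : U.card ≤ (n + 1) * TT n * D := by
    rw [hU]
    refine (Finset.card_biUnion_le_card_mul _ _ D fun rt _ => hS1 _ _).trans ?_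
    rw [Finset.card_univ, Fintype.card_prod, Fintype.card_fin, Fintype.card_fin]
  have hUm : ∀ r t, S r t ⊆ U := by
    intro r t
    rw [hU]
    exact Finset.subset_biUnion_of_mem
      (fun rt : Fin (n + 1) × Fin (TT n) => S rt.1 rt.2) (Finset.mem_univ (r, t))
  obtain ⟨θ0, a1, a2, a3⟩ := pick (a := 1) (b := K) hUc hK
  obtain ⟨θ1, b1, b2, b3⟩ := pick (a := K + 1) (b := 2 * K + 1) hUc (by omega)
  refine ⟨θ0, θ1, a1, a2, b1, b2, fun s hs r hrn t x v lam V hV => ?_⟩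
  have key : ∀ θ : ℕ, 1 ≤ θ → θ ≤ 2 * K + 1 → (θ : ℤ) ∉ U → V ≠ θ := by
    intro θ c1 c2 c3 hVθ
    obtain ⟨r', hr'⟩ : ∃ r' : Fin (n + 1), (r' : ℕ) = r := ⟨⟨r, by omega⟩, rfl⟩
    subst hr'
    have d1 : qt (q r' t) θ ≠ 0 := hS2 r' t θ fun h => c3 (hUm r' t h)
    obtain ⟨p1, p2, p3⟩ := h3 n (TT n)
    have d2 := h2 (Par n (TT n)) D (D * HB n (TT n) C D * (2 * K + 1) ^ D) e (qt (q r' t) θ)
      (pos n (TT n)) s (fun i => i = Sum.inl 1) d1 (qt_le (hqb r' t) c1 c2) p1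
      (by rw [p3]; exact he) hs.1 (by
        rw [p3]
        refine lt_of_le_of_lt ?_ hs.2.1
        have e1 : D ^ LL n (TT n) * (D * HB n (TT n) C D * (2 * K + 1) ^ D) ≤ AB n C D K := by
          unfold AB
          have e2 : (2 * K + 1) ^ D ≤ (2 * K + 2) ^ D := Nat.pow_le_pow_left (by omega) _
          calc D ^ LL n (TT n) * (D * HB n (TT n) C D * (2 * K + 1) ^ D) =
              D ^ (LL n (TT n) + 1) * HB n (TT n) C D * (2 * K + 1) ^ D := by ring
            _ ≤ D ^ (LL n (TT n) + 1) * HB n (TT n) C D * (2 * K + 2) ^ D :=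
                Nat.mul_le_mul_left _ e2
            _ ≤ _ := Nat.le_succ _
        exact_mod_cast e1) hs.2.2
    apply d2
    have d3 := hq r' t (pv s) x v lam V hV
    have d4 : (fun i : Option (Par n (TT n)) =>
        i.elim (yv x v lam V (Sum.inr (Sum.inr (Sum.inr ())))) (pv s)) =
        fun o => o.elim (θ : ℝ) (pv s) := by
      funext o
      cases o
      · exact hVθ
      · rfl
    rw [d4, ← bev_qt] at d3
    exact d3
  exact ⟨key θ0 a1 (by omega) a3, key θ1 (by omega) b2 b3⟩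

end Pool.Agent.Q24.IP
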